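import Pool.Agent.JJ31.Half

/-!
# The overdamped Josephson model: phase-lock areas and vertical lines

Known, not used here: the rotation number exists and does not depend on the solution; every
adjacency of `L_r` has an abscissa `l ω` with `l` an integer of the parity of `r`, between `0` and `r`.
-/

set_option autoImplicit false

namespace Pool.Agent.Results.MP_03d1aa_an.HalfTurnBound

open Pool.Agent.JJ31
open scoped Real

/-- Let `ω > 0`. For all real `B`, `A` and every solution `φ` of
`φ' = (-sin φ + B + A cos τ) / ω` (`Sol`) with a rotation number `ρ = lim φ (2πk) / (2πk)` (`Rot`):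
if `B > 0`, then `ρ * ∫_0^π ds / (B + sin s) ≤ π / ω`, and if `B ≥ 0`, then `ρ ≤ (B + 2 / π) / ω`.

Hence the phase-lock area `L_r` (`Area ω r`: the points `(B, A)` for which some solution has the
rotation number `r`) is disjoint from the line `B = l ω` (`Line ω l`) for all integers `0 ≤ l < r`
with `(r - l) ω > 2 / π`: `L_{r+1}` and the line `B = r ω` are disjoint for every `ω > 2 / π`, and
`L_r` is disjoint from the lines `B = l ω`, `0 ≤ l ≤ r - 2`, for every `ω > 1 / π`. -/
theorem result (ω : ℝ) (hω : 0 < ω) :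
    (∀ (B A ρ : ℝ) (φ : ℝ → ℝ), Sol ω B A φ → Rot φ ρ →
      (0 < B → ρ * ∫ s in (0 : ℝ)..π, 1 / (B + Real.sin s) ≤ π / ω) ∧
      (0 ≤ B → ρ ≤ (B + 2 / π) / ω)) ∧
    (∀ l r : ℕ, 2 / π < ((r : ℝ) - l) * ω → Disjoint (Area ω r) (Line ω l)) ∧
    (2 / π < ω → ∀ r : ℕ, Disjoint (Area ω (r + 1)) (Line ω r)) ∧
    (1 / π < ω → ∀ l r : ℕ, l + 2 ≤ r → Disjoint (Area ω r) (Line ω l)) := by
  refine ⟨fun B A ρ φ hs hr => ⟨fun hB => rot_le hω hB le_rfl hs hr, fun hB => rot_le' hω hB hs hr⟩,
    fun l r h => disj hω l r h, fun h r => ?_, fun h l r hlr => ?_⟩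
  · have h1 := disj hω r (r + 1) (by
      push_cast
      linarith)
    simpa using h1
  · refine disj hω l r ?_
    have h1 : (2 : ℝ) ≤ (r : ℝ) - l := by
      have h2 : (l : ℝ) + 2 ≤ r := by exact_mod_cast hlr
      linarith
    have h3 : 2 / π = 2 * (1 / π) := by ring
    rw [h3]
    calc 2 * (1 / π) < 2 * ω := by linarith
      _ ≤ ((r : ℝ) - l) * ω := mul_le_mul_of_nonneg_right h1 hω.le

end Pool.Agent.Results.MP_03d1aa_an.HalfTurnBound
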