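import Pool.Agent.JJ31.Half

/-!
# The overdamped Josephson model: phase-lock areas near the `B`-axis, every frequency

For `φ' = (-sin φ + B + A cos τ) / ω` with rotation number `ρ`: `ρ ω (ρ ω - B) ≤ A ^ 2 / 8`. Hence the
phase-lock area `L_r`, `r ≥ 1`, lies in the region `B ≥ r ω - A ^ 2 / (8 r ω)`, and it has no point with
`A ^ 2 < 8 r (r - l) ω ^ 2` on the line `B = l ω`, `l < r`.

`Sol`, `Rot`, `Area`, `Line` are the definitions of `HalfTurnBound` (in `Pool/Agent/JJ31/Half.lean`).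
Known, not used here: the rotation number exists and does not depend on the solution.
-/

set_option autoImplicit false

namespace Pool.Agent.Results.MP_03d1aa_an.ParabolaBound

open Real Filter Topology
open Pool.Agent.JJ31 (Sol Rot Area Line)

/-- The integral of a square over `[0, 2πk]`. -/
theorem step {ω B A : ℝ} {φ : ℝ → ℝ} (hω : 0 < ω)
    (h : ∀ τ : ℝ, HasDerivAt φ ((-sin (φ τ) + B + A * cos τ) / ω) τ) (c : ℝ) (k : ℕ) :
    (2 * c + B) * (ω * (φ (2 * π * k) - φ 0) - B * (2 * π * k)) ≤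
      (c ^ 2 + A ^ 2 / 8) * (2 * π * k) + 2 * ω := by
  have key : Monotone (fun τ : ℝ => ω * cos (φ τ) + c ^ 2 * τ +
      A ^ 2 / 4 * ((τ + sin τ * cos τ) / 2) - (2 * c + B) * (ω * φ τ - B * τ - A * sin τ) -
      c * A * sin τ) := by
    have hd : ∀ τ : ℝ, HasDerivAt (fun τ : ℝ => ω * cos (φ τ) + c ^ 2 * τ +
      A ^ 2 / 4 * ((τ + sin τ * cos τ) / 2) - (2 * c + B) * (ω * φ τ - B * τ - A * sin τ) -
      c * A * sin τ)
      (ω * (-sin (φ τ) * ((-sin (φ τ) + B + A * cos τ) / ω)) + c ^ 2 * 1 +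
      A ^ 2 / 4 * ((1 + (cos τ * cos τ + sin τ * -sin τ)) / 2) -
      (2 * c + B) * (ω * ((-sin (φ τ) + B + A * cos τ) / ω) - B * 1 - A * cos τ) -
      c * A * cos τ) τ := by
      intro τ
      have e4 := hasDerivAt_id τ
      have e5 := hasDerivAt_sin τ
      have e6 := hasDerivAt_cos τ
      exact (((((h τ).cos.const_mul ω).add (e4.const_mul (c ^ 2))).add
        ((((e4.add (e5.mul e6)).div_const 2)).const_mul (A ^ 2 / 4))).sub
        ((((h τ).const_mul ω).sub (e4.const_mul B)).sub (e5.const_mul A) |>.const_mul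
          (2 * c + B))).sub (e5.const_mul (c * A))
    refine monotone_of_deriv_nonneg (fun τ => (hd τ).differentiableAt) fun τ => ?_
    rw [(hd τ).deriv]
    have hc := sin_sq_add_cos_sq τ
    have hw : ω * ((-sin (φ τ) + B + A * cos τ) / ω) = -sin (φ τ) + B + A * cos τ := by
      field_simp
    have hw2 : ω * (-sin (φ τ) * ((-sin (φ τ) + B + A * cos τ) / ω)) =
        -sin (φ τ) * (-sin (φ τ) + B + A * cos τ) := by
      field_simp
    rw [hw, hw2]
    have hs : sin τ * -sin τ = -(1 - cos τ * cos τ) := by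
      have : sin τ * sin τ = 1 - cos τ * cos τ := by nlinarith
      rw [mul_neg, this]
    rw [hs]
    have e : -sin (φ τ) * (-sin (φ τ) + B + A * cos τ) + c ^ 2 * 1 +
        A ^ 2 / 4 * ((1 + (cos τ * cos τ + -(1 - cos τ * cos τ))) / 2) -
        (2 * c + B) * (-sin (φ τ) + B + A * cos τ - B * 1 - A * cos τ) - c * A * cos τ =
        (-sin (φ τ) - c + A / 2 * cos τ) ^ 2 := by ring
    rw [e]
    positivity
  have hk : (0 : ℝ) ≤ 2 * π * k := by positivity
  have hm := key hk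
  have hs0 : sin (2 * π * k) = 0 := by
    have : (2 * π * k : ℝ) = ((2 * k : ℕ) : ℝ) * π := by push_cast; ring
    rw [this]
    exact sin_nat_mul_pi _
  simp only [hs0, sin_zero, mul_zero, zero_mul, add_zero, sub_zero, zero_div] at hm
  have h1 := cos_le_one (φ (2 * π * k))
  have h2 := neg_one_le_cos (φ 0)
  nlinarith [hm, mul_le_mul_of_nonneg_left h1 hω.le, mul_le_mul_of_nonneg_left h2 hω.le]

theorem bound {ω B A ρ : ℝ} {φ : ℝ → ℝ} (hω : 0 < ω) (hS : Sol ω B A φ) (hr : Rot φ ρ) :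
    ρ * ω * (ρ * ω - B) ≤ A ^ 2 / 8 := by
  have h : ∀ τ : ℝ, HasDerivAt φ ((-sin (φ τ) + B + A * cos τ) / ω) τ :=
    fun τ => (hS τ).congr_deriv (by ring)
  obtain ⟨c, hc⟩ : ∃ c : ℝ, c = ρ * ω - B := ⟨_, rfl⟩
  have hT : Tendsto (fun k : ℕ => 2 * π * (k : ℝ)) atTop atTop :=
    tendsto_natCast_atTop_atTop.const_mul_atTop (by positivity)
  have h0 : Tendsto (fun k : ℕ => φ 0 / (2 * π * (k : ℝ))) atTop (𝓝 0) := hT.const_div_atTop _
  have h3 : Tendsto (fun k : ℕ => 2 * ω / (2 * π * (k : ℝ))) atTop (𝓝 0) := hT.const_div_atTop _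
  have hl : Tendsto (fun k : ℕ => (2 * c + B) *
      (ω * (φ (2 * π * k) / (2 * π * k) - φ 0 / (2 * π * k)) - B)) atTop
      (𝓝 ((2 * c + B) * (ω * (ρ - 0) - B))) :=
    (((hr.sub h0).const_mul ω).sub_const B).const_mul _
  have hrr : Tendsto (fun k : ℕ => (c ^ 2 + A ^ 2 / 8) + 2 * ω / (2 * π * (k : ℝ))) atTop
      (𝓝 ((c ^ 2 + A ^ 2 / 8) + 0)) := h3.const_add _
  have hle := le_of_tendsto_of_tendsto hl hrr (by
    filter_upwards [hT.eventually_gt_atTop 0] with k hk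
    have h1 := step hω h c k
    have e1 : ∀ D u : ℝ, 0 < D → (2 * c + B) * (ω * (u / D - φ 0 / D) - B) =
        ((2 * c + B) * (ω * (u - φ 0) - B * D)) / D := by
      intro D u hD
      have hD' : D ≠ 0 := hD.ne'
      field_simp
    have e2 : ∀ D : ℝ, 0 < D → (c ^ 2 + A ^ 2 / 8) + 2 * ω / D =
        ((c ^ 2 + A ^ 2 / 8) * D + 2 * ω) / D := by
      intro D hD
      have hD' : D ≠ 0 := hD.ne'
      field_simp
    rw [e1 _ _ hk, e2 _ hk]
    exact div_le_div_of_nonneg_right h1 hk.le)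
  have e3 : ω * (ρ - 0) - B = c := by rw [hc]; ring
  rw [e3] at hle
  have e4 : ρ * ω = c + B := by rw [hc]; ring
  rw [e4]
  nlinarith [hle]

/-- Let `ω > 0`. For all real `B`, `A` and every solution `φ` of `φ' = (-sin φ + B + A cos τ) / ω`
(`Sol`) with a rotation number `ρ = lim φ (2πk) / (2πk)` (`Rot`): `ρ ω (ρ ω - B) ≤ A ^ 2 / 8`.

Hence for every integer `r ≥ 1` the points `(B, A)` of the phase-lock area `L_r` (`Area ω r`: the points
for which some solution has the rotation number `r`) satisfy `r ω - A ^ 2 / (8 r ω) ≤ B`, and for all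
integers `l < r` with `r ≥ 1` the area `L_r` has no point with `A ^ 2 < 8 r (r - l) ω ^ 2` on the line
`B = l ω`. -/
theorem result (ω : ℝ) (hω : 0 < ω) :
    (∀ (B A ρ : ℝ) (φ : ℝ → ℝ), Sol ω B A φ → Rot φ ρ → ρ * ω * (ρ * ω - B) ≤ A ^ 2 / 8) ∧
    (∀ r : ℤ, 1 ≤ r → ∀ P ∈ Area ω r, r * ω - P.2 ^ 2 / (8 * r * ω) ≤ P.1) ∧
    (∀ l r : ℤ, 1 ≤ r → l < r →
      Disjoint (Area ω r) (Line ω l ∩ {P | P.2 ^ 2 < 8 * r * (r - l) * ω ^ 2})) := by
  refine ⟨fun B A ρ φ hs hr => bound hω hs hr, ?_, ?_⟩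
  · rintro r hr ⟨B, A⟩ ⟨φ, hs, hrot⟩
    have hr0 : (0 : ℝ) < r := by exact_mod_cast hr
    have h1 := bound hω hs hrot
    have h2 : 0 < r * ω := mul_pos hr0 hω
    have h3 : r * ω - B ≤ A ^ 2 / 8 / (r * ω) := by
      rw [le_div_iff₀ h2]
      linarith
    have h4 : A ^ 2 / 8 / (r * ω) = A ^ 2 / (8 * r * ω) := by
      rw [div_div]
      ring_nf
    rw [h4] at h3
    change r * ω - A ^ 2 / (8 * r * ω) ≤ B
    linarith
  · intro l r hr hlr
    rw [Set.disjoint_left]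
    rintro ⟨B, A⟩ ⟨φ, hs, hrot⟩ ⟨hB, hA⟩
    have h1 := bound hω hs hrot
    change B = l * ω at hB
    change A ^ 2 < 8 * r * (r - l) * ω ^ 2 at hA
    change (r : ℝ) * ω * (r * ω - B) ≤ A ^ 2 / 8 at h1
    rw [hB] at h1
    nlinarith [h1, hA]

end Pool.Agent.Results.MP_03d1aa_an.ParabolaBound
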